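import Pool.Agent.helper96.LK.SpecH

/-!
# Project lk: module CNT
-/

open Finset

namespace Pool.Agent.LK

/-- the generic sets -/
def CNT_G (a dl : ℤ) (P : Pt) : Prop :=
  isS dl P ∨ isT a dl P ∨ isU a dl P ∨ isW a dl P ∨ isV a dl P

theorem CNT_A00 {a dl : ℤ} {P : Pt} (h : isB a dl P) : ((0 : ℤ), (0 : ℤ)) ∈ LA a dl P := by
  unfold isB at h
  unfold LA
  split_ifs <;> simp_all

theorem CNT_A10 {a dl : ℤ} {P : Pt} (h : CNT_G a dl P) : ((1 : ℤ), (0 : ℤ)) ∈ LA a dl P := by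
  unfold CNT_G at h
  unfold LA
  split_ifs <;> simp_all

theorem CNT_A01 {a dl : ℤ} {P : Pt} (h : CNT_G a dl P) : ((0 : ℤ), (1 : ℤ)) ∈ LA a dl P := by
  unfold CNT_G at h
  unfold LA
  split_ifs <;> simp_all

theorem CNT_A02 {a dl : ℤ} {P : Pt} (h : isS dl P) : ((0 : ℤ), (2 : ℤ)) ∈ LA a dl P := by
  unfold LA
  rw [if_pos h]
  simp

theorem CNT_A11 {a dl : ℤ} {P : Pt} (h : isS dl P) : ((1 : ℤ), (1 : ℤ)) ∈ LA a dl P := by
  unfold LA
  rw [if_pos h]
  simp

theorem CNT_notS_U {a dl : ℤ} (ha : 11 ≤ a) (h1 : dl ≤ 1) {P : Pt} (h : isU a dl P) :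
    ¬isS dl P := by
  unfold isU at h; unfold isS; omega

theorem CNT_notS_V {a dl : ℤ} (ha : 11 ≤ a) (h1 : dl ≤ 1) {P : Pt} (h : isV a dl P) :
    ¬isS dl P := by
  unfold isV at h; unfold isS; omega

theorem CNT_notS_W {a dl : ℤ} (ha : 11 ≤ a) (h1 : dl ≤ 1) {P : Pt} (h : isW a dl P) :
    ¬isS dl P := by
  unfold isW at h; unfold isS; omega

theorem CNT_notS_T {a dl : ℤ} {P : Pt} (h : isT a dl P) : ¬isS dl P := by
  unfold isT at h; unfold isS; omega

theorem CNT_notS_Q {a dl : ℤ} (ha : 11 ≤ a) {P : Pt} (h : isQ a dl P) :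
    ¬isS dl P := by
  unfold isQ at h; unfold isS; omega

theorem CNT_notT_U {a dl : ℤ} {P : Pt} (h : isU a dl P) : ¬isT a dl P := by
  unfold isU at h; unfold isT; omega

theorem CNT_notT_V {a dl : ℤ} {P : Pt} (h : isV a dl P) : ¬isT a dl P := by
  unfold isV at h; unfold isT; omega

theorem CNT_notT_W {a dl : ℤ} {P : Pt} (h : isW a dl P) : ¬isT a dl P := by
  unfold isW at h; unfold isT; omega

theorem CNT_notT_Q {a dl : ℤ} {P : Pt} (h : isQ a dl P) : ¬isT a dl P := by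
  unfold isQ at h; unfold isT; omega

theorem CNT_notU_V {a dl : ℤ} {P : Pt} (h : isV a dl P) : ¬isU a dl P := by
  unfold isV at h; unfold isU; omega

theorem CNT_notU_W {a dl : ℤ} (ha : 11 ≤ a) (h1 : dl ≤ 1) {P : Pt} (h : isW a dl P) :
    ¬isU a dl P := by
  unfold isW at h; unfold isU; omega

theorem CNT_notU_Q {a dl : ℤ} {P : Pt} (h : isQ a dl P) : ¬isU a dl P := by
  unfold isQ at h; unfold isU; omega

theorem CNT_notW_V {a dl : ℤ} (ha : 11 ≤ a) (h1 : dl ≤ 1) {P : Pt} (h : isV a dl P) :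
    ¬isW a dl P := by
  unfold isV at h; unfold isW; omega

theorem CNT_notW_Q {a dl : ℤ} {P : Pt} (h : isQ a dl P) : ¬isW a dl P := by
  unfold isQ at h; unfold isW; omega

theorem CNT_notV_Q {a dl : ℤ} {P : Pt} (ha : 11 ≤ a) (h : isQ a dl P) : ¬isV a dl P := by
  unfold isQ at h; unfold isV; omega

theorem CNT_A21 {a dl : ℤ} (ha : 11 ≤ a) (h1 : dl ≤ 1) {P : Pt} (h : isU a dl P ∨ isV a dl P) :
    ((2 : ℤ), (-1 : ℤ)) ∈ LA a dl P := by
  unfold LA
  rcases h with h | h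
  · rw [if_neg (CNT_notS_U ha h1 h), if_neg (CNT_notT_U h), if_pos h]; simp
  · rw [if_neg (CNT_notS_V ha h1 h), if_neg (CNT_notT_V h), if_neg (CNT_notU_V h),
      if_neg (CNT_notW_V ha h1 h), if_pos h]; simp

theorem CNT_A12 {a dl : ℤ} (ha : 11 ≤ a) (h1 : dl ≤ 1) {P : Pt} (h : isW a dl P) :
    ((-1 : ℤ), (2 : ℤ)) ∈ LA a dl P := by
  unfold LA
  rw [if_neg (CNT_notS_W ha h1 h), if_neg (CNT_notT_W h), if_neg (CNT_notU_W ha h1 h), if_pos h]
  simp

theorem CNT_A1m1 {a dl : ℤ} (ha : 11 ≤ a) (h1 : dl ≤ 1) {P : Pt}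
    (h : isV a dl P ∨ (isQ a dl P ∧ a - 1 ≤ P.2)) :
    ((1 : ℤ), (-1 : ℤ)) ∈ LA a dl P := by
  unfold LA
  rcases h with h | ⟨h, h'⟩
  · rw [if_neg (CNT_notS_V ha h1 h), if_neg (CNT_notT_V h), if_neg (CNT_notU_V h),
      if_neg (CNT_notW_V ha h1 h), if_pos h]; simp
  · rw [if_neg (CNT_notS_Q ha h), if_neg (CNT_notT_Q h), if_neg (CNT_notU_Q h),
      if_neg (CNT_notW_Q h), if_neg (CNT_notV_Q ha h), if_pos h, if_pos h']; simp

theorem CNT_A2m2 {a dl : ℤ} (ha : 11 ≤ a) {P : Pt}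
    (h : isQ a dl P ∧ 2 * a - 2 ≤ P.2) :
    ((2 : ℤ), (-2 : ℤ)) ∈ LA a dl P := by
  unfold LA
  rcases h with ⟨h, h'⟩
  rw [if_neg (CNT_notS_Q ha h), if_neg (CNT_notT_Q h), if_neg (CNT_notU_Q h),
      if_neg (CNT_notW_Q h), if_neg (CNT_notV_Q ha h), if_pos h, if_pos h',
      if_pos (by omega : a - 1 ≤ P.2)]; simp

/-! type B -/

theorem CNT_B00 {a dl : ℤ} (ha : 11 ≤ a) {P : Pt} (hP : 1 ≤ P.1 ∧ 1 ≤ P.2)
    (h : isT a dl P ∨ isU a dl P ∨ isW a dl P ∨ isQ a dl P) (h1 : dl ≤ 1) :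
    ((0 : ℤ), (0 : ℤ)) ∈ LB a dl P := by
  have hS : ¬isS dl P := by
    rcases h with h | h | h | h
    · exact CNT_notS_T h
    · exact CNT_notS_U ha h1 h
    · exact CNT_notS_W ha h1 h
    · exact CNT_notS_Q ha h
  unfold LB
  rw [if_neg hS]
  by_cases hT : isT a dl P ∨ isU a dl P ∨ isW a dl P
  · rw [if_pos hT, L0, if_pos hP]; simp
  · rw [if_neg hT]
    have hQ : isQ a dl P := by
      rcases h with h | h | h | h
      · exact absurd (Or.inl h) hT
      · exact absurd (Or.inr (Or.inl h)) hT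
      · exact absurd (Or.inr (Or.inr h)) hT
      · exact h
    rw [if_neg (CNT_notV_Q ha hQ), if_pos hQ, L0, if_pos hP]
    simp

theorem CNT_B01 {a dl : ℤ} {P : Pt} (h : CNT_G a dl P) : ((0 : ℤ), (1 : ℤ)) ∈ LB a dl P := by
  unfold CNT_G at h
  unfold LB
  by_cases hS : isS dl P
  · rw [if_pos hS]; simp
  · rw [if_neg hS]
    by_cases hT : isT a dl P ∨ isU a dl P ∨ isW a dl P
    · rw [if_pos hT]; simp
    · rw [if_neg hT]
      have hV : isV a dl P := by
        rcases h with h | h | h | h | h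
        · exact absurd h hS
        · exact absurd (Or.inl h) hT
        · exact absurd (Or.inr (Or.inl h)) hT
        · exact absurd (Or.inr (Or.inr h)) hT
        · exact h
      rw [if_pos hV]; simp

theorem CNT_B10 {a dl : ℤ} {P : Pt} (hS : ¬isS dl P) (h : CNT_G a dl P) :
    ((1 : ℤ), (0 : ℤ)) ∈ LB a dl P := by
  unfold CNT_G at h
  unfold LB
  rw [if_neg hS]
  by_cases hT : isT a dl P ∨ isU a dl P ∨ isW a dl P
  · rw [if_pos hT]; simp
  · rw [if_neg hT]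
    have hV : isV a dl P := by
      rcases h with h | h | h | h | h
      · exact absurd h hS
      · exact absurd (Or.inl h) hT
      · exact absurd (Or.inr (Or.inl h)) hT
      · exact absurd (Or.inr (Or.inr h)) hT
      · exact h
    rw [if_pos hV]; simp

theorem CNT_B02 {a dl : ℤ} {P : Pt} (h : isS dl P) : ((0 : ℤ), (2 : ℤ)) ∈ LB a dl P := by
  unfold LB
  rw [if_pos h]
  simp

theorem CNT_B11 {a dl : ℤ} {P : Pt} (h : isS dl P) : ((1 : ℤ), (1 : ℤ)) ∈ LB a dl P := by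
  unfold LB
  rw [if_pos h]
  simp

theorem CNT_B21 {a dl : ℤ} (ha : 11 ≤ a) (h1 : dl ≤ 1) {P : Pt} (h : isV a dl P) :
    ((2 : ℤ), (-1 : ℤ)) ∈ LB a dl P := by
  unfold LB
  rw [if_neg (CNT_notS_V ha h1 h), if_neg (by
    rintro (h' | h' | h')
    · exact CNT_notT_V h h'
    · exact CNT_notU_V h h'
    · exact CNT_notW_V ha h1 h h'), if_pos h]
  simp

theorem CNT_B1m1 {a dl : ℤ} (ha : 11 ≤ a) {P : Pt} (h : isQ a dl P) (h' : a ≤ P.2) :
    ((1 : ℤ), (-1 : ℤ)) ∈ LB a dl P := by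
  unfold LB
  rw [if_neg (CNT_notS_Q ha h), if_neg (by
    rintro (h' | h' | h')
    · exact CNT_notT_Q h h'
    · exact CNT_notU_Q h h'
    · exact CNT_notW_Q h h'), if_neg (CNT_notV_Q ha h), if_pos h, if_pos h']
  simp

/-- exceptional points for type `A` -/
def CNT_exA (a : ℤ) (dl : ℕ) : List Pt :=
  [(1, 1), (a + 1, 2), (2, a + 1), (2 * a + 1, 3), (a + 2, a + 2), (3, 2 * a + 1),
    (1 + 2 * (a + 1) / 3, 1 + 2 * (a + 1) / 3),
    (2 * a, 3), (2 * a + 1, 2), (2 * a, 4), (2 * a + 2, 2)] ++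
  (if dl = 0 then [] else [(2 * a, 5), (2 * a + 1, 4), (2 * a + 2, 3), (2 * a + 3, 2)])

/-- further exceptional points for type `B` -/
def CNT_exB (a : ℤ) (dl : ℕ) : List Pt :=
  CNT_exA a dl ++
  ([(a, 2), (a + 1, 1), (a, 3), (a + 2, 1), (a - 1, 1), (a - 1, 2), (a - 1, 3), (a - 1, 4),
    (1, a - 1), (2, a - 1), (3, a - 1), (4, a - 1), (1, a), (a, 1)] ++
  (if dl = 0 then [] else [(a, 4), (a + 1, 3), (a + 2, 2), (a + 3, 1), (1, 2), (2, 1), (a - 1, 5),
    (5, a - 1)]))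

theorem CNT_lenA (a : ℤ) (dl : ℕ) (h : dl ≤ 1) : (CNT_exA a dl).length = 11 + 4 * dl := by
  interval_cases dl <;> simp [CNT_exA]

theorem CNT_lenB (a : ℤ) (dl : ℕ) (h : dl ≤ 1) : (CNT_exB a dl).length = 25 + 12 * dl := by
  interval_cases dl <;> simp [CNT_exB, CNT_exA]

/-- `Q` comes from `(P, o)` -/
theorem CNT_mkA {a dl : ℤ} (ha : 11 ≤ a) (h0 : 0 ≤ dl) (h1 : dl ≤ 1) {Q : Pt} (P o : Pt)
    (hP : isB a dl P) (ho : o ∈ LA a dl P) (hQ : shift a P o = Q) :
    ∃ u ∈ UA a dl, shift a u.1 u.2 = Q :=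
  ⟨(P, o), mem_UA.2 ⟨(mem_BB ha h0 h1).2 hP, ho⟩, hQ⟩

theorem CNT_mkB {a dl : ℤ} (ha : 11 ≤ a) (h0 : 0 ≤ dl) (h1 : dl ≤ 1) {Q : Pt} (P o : Pt)
    (hP : isB a dl P) (ho : o ∈ LB a dl P) (hQ : shift a P o = Q) :
    ∃ u ∈ UB a dl, shift a u.1 u.2 = Q :=
  ⟨(P, o), mem_UB.2 ⟨(mem_BB ha h0 h1).2 hP, ho⟩, hQ⟩

theorem CNT_GB {a dl : ℤ} {P : Pt} (h : CNT_G a dl P) : isB a dl P := by
  unfold CNT_G at h; unfold isB; tauto

theorem CNT_G_of {a dl : ℤ} (ha : 11 ≤ a) (h0 : 0 ≤ dl) (h1 : dl ≤ 1) {x y : ℤ}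
    (hx : 0 ≤ x) (hy : 0 ≤ y) (hs : 1 ≤ x + y) (hs' : x + y ≤ a + 3 + dl) (hx' : x ≤ a - 2)
    (h : y ≤ a - 1 ∨ x = 0 ∨ (x = 1 ∧ y = a)) (hne : ¬(x = 1 ∧ y = 1)) : CNT_G a dl (x, y) := by
  simp only [CNT_G, isS, isT, isU, isW, isV]
  omega

theorem CNT_covA (a : ℤ) (dl : ℕ) (ha : 11 ≤ a) (hd : dl ≤ 1) (I J : ℤ) (hI : 0 ≤ I) (hJ : 0 ≤ J)
    (h1 : 1 ≤ I + J) (h2 : I + J ≤ 2 * a + 4 + dl) (hex : ((I, J) : Pt) ∉ CNT_exA a dl) :
    ∃ u ∈ UA a dl, shift a u.1 u.2 = (I, J) := by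
  have h0 : (0 : ℤ) ≤ (dl : ℤ) := by positivity
  have hd' : (dl : ℤ) ≤ 1 := by exact_mod_cast hd
  have hshift : ∀ (x y i k : ℤ), x + i * a + k = I → y + i + k * a = J →
      shift a (x, y) (i, k) = (I, J) := by
    intro x y i k h3 h4
    simp only [shift, h3, h4]
  have hS : ∀ x y : ℤ, 0 ≤ x → 0 ≤ y → 1 ≤ x + y → x + y ≤ 2 + dl → ¬(x = 1 ∧ y = 1) →
      isS dl (x, y) := by
    intro x y h3 h4 h5 h6 h7
    exact ⟨h5, h6, h3, h4, h7⟩
  -- the base
  by_cases c1 : (I ≤ a - 2 ∧ J ≤ a - 1) ∨ (I = 0 ∧ J ≤ 2 * a - 2) ∨ (I = 1 ∧ J = a)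
  · have hB : isB a dl (I, J) := by
      have e1 : ¬(I = 1 ∧ J = 1) := by
        rintro ⟨rfl, rfl⟩
        exact hex (by simp [CNT_exA])
      have e2 : ¬(I = 1 + 2 * (a + 1) / 3 ∧ J = 1 + 2 * (a + 1) / 3) := by
        rintro ⟨rfl, rfl⟩
        exact hex (by simp [CNT_exA])
      simp only [isB, isS, isT, isU, isW, isV, isQ]
      omega
    exact CNT_mkA ha h0 hd' (I, J) (0, 0) hB (CNT_A00 hB) (hshift _ _ _ _ (by ring) (by ring))
  -- minus beta
  by_cases c2 : 1 ≤ I ∧ I ≤ a - 1 ∧ a ≤ J ∧ (J ≤ 2 * a - 1 ∨ I = 1 ∨ (I = 2 ∧ J = 2 * a))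
  · have e1 : ¬(I = 2 ∧ J = a + 1) := by
      rintro ⟨rfl, rfl⟩
      exact hex (by simp [CNT_exA])
    have hG : CNT_G a dl (I - 1, J - a) :=
      CNT_G_of ha h0 hd' (by omega) (by omega) (by omega) (by omega) (by omega) (by omega)
        (by omega)
    exact CNT_mkA ha h0 hd' (I - 1, J - a) (0, 1) (CNT_GB hG) (CNT_A01 hG)
      (hshift _ _ _ _ (by ring) (by ring))
  -- minus alpha
  by_cases c3 : a ≤ I ∧ I ≤ 2 * a - 2 ∧ 1 ≤ J ∧ 2 ≤ I - a + J ∧
      (J ≤ a ∨ I = a ∨ (I = a + 1 ∧ J = a + 1))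
  · have e1 : ¬(I = a + 1 ∧ J = 2) := by
      rintro ⟨rfl, rfl⟩
      exact hex (by simp [CNT_exA])
    have hG : CNT_G a dl (I - a, J - 1) :=
      CNT_G_of ha h0 hd' (by omega) (by omega) (by omega) (by omega) (by omega) (by omega)
        (by omega)
    exact CNT_mkA ha h0 hd' (I - a, J - 1) (1, 0) (CNT_GB hG) (CNT_A10 hG)
      (hshift _ _ _ _ (by ring) (by ring))
  -- I = 0
  by_cases c4 : I = 0
  · have hW : isW a dl (I + a - 2, J - 2 * a + 1) := by
      simp only [isW]; omega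
    have hB : isB a dl (I + a - 2, J - 2 * a + 1) := by
      unfold isB; exact Or.inr (Or.inr (Or.inr (Or.inl hW)))
    exact CNT_mkA ha h0 hd' _ (-1, 2) hB (CNT_A12 ha hd' hW)
      (hshift _ _ _ _ (by ring) (by ring))
  -- plus (a-1, 1-a)
  by_cases c5 : (I = a - 1 ∧ J ≤ a - 1) ∨ (I = a ∧ J = 1) ∨ (a ≤ I ∧ I ≤ 2 * a - 3 ∧ J = 0)
  · have hV : isV a dl (I - a + 1, J + a - 1) ∨
        (isQ a dl (I - a + 1, J + a - 1) ∧ a - 1 ≤ ((I - a + 1, J + a - 1) : Pt).2) := by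
      simp only [isV, isQ]
      omega
    have hB : isB a dl (I - a + 1, J + a - 1) := by
      unfold isB
      rcases hV with hV | ⟨hV, _⟩
      · exact Or.inr (Or.inr (Or.inr (Or.inr (Or.inl hV))))
      · exact Or.inr (Or.inr (Or.inr (Or.inr (Or.inr hV))))
    exact CNT_mkA ha h0 hd' _ (1, -1) hB (CNT_A1m1 ha hd' hV)
      (hshift _ _ _ _ (by ring) (by ring))
  -- plus 2(a-1, 1-a)
  by_cases c6 : I = 2 * a - 2 ∧ J = 0
  · have hQ : isQ a dl (I - 2 * a + 2, J + 2 * a - 2) ∧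
        2 * a - 2 ≤ ((I - 2 * a + 2, J + 2 * a - 2) : Pt).2 := by
      simp only [isQ]
      omega
    have hB : isB a dl (I - 2 * a + 2, J + 2 * a - 2) := by
      unfold isB
      exact Or.inr (Or.inr (Or.inr (Or.inr (Or.inr hQ.1))))
    exact CNT_mkA ha h0 hd' _ (2, -2) hB (CNT_A2m2 ha hQ)
      (hshift _ _ _ _ (by ring) (by ring))
  -- minus 2 beta
  by_cases c7 : I ≤ a - 1
  · have e1 : ¬(I = 3 ∧ J = 2 * a + 1) := by
      rintro ⟨rfl, rfl⟩
      exact hex (by simp [CNT_exA])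
    have hS' : isS dl (I - 2, J - 2 * a) :=
      hS _ _ (by omega) (by omega) (by omega) (by omega) (by omega)
    exact CNT_mkA ha h0 hd' _ (0, 2) (Or.inl hS') (CNT_A02 hS')
      (hshift _ _ _ _ (by ring) (by ring))
  -- minus alpha minus beta
  by_cases c8 : a + 1 ≤ J
  · have e1 : ¬(I = a + 2 ∧ J = a + 2) := by
      rintro ⟨rfl, rfl⟩
      exact hex (by simp [CNT_exA])
    have hS' : isS dl (I - a - 1, J - a - 1) :=
      hS _ _ (by omega) (by omega) (by omega) (by omega) (by omega)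
    exact CNT_mkA ha h0 hd' _ (1, 1) (Or.inl hS') (CNT_A11 hS')
      (hshift _ _ _ _ (by ring) (by ring))
  -- minus 2 alpha plus beta
  have g1 : 2 * a - 1 ≤ I := by omega
  have g2 : J ≤ a := by omega
  clear c1 c2 c3 c4 c5 c6 c7 c8
  have hUV : isU a dl (I - 2 * a + 1, J + a - 2) ∨ isV a dl (I - 2 * a + 1, J + a - 2) := by
    by_cases d1 : J = 0
    · left
      simp only [isU]
      omega
    by_cases d2 : J = 1
    · right
      simp only [isV]
      omega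
    by_cases d3 : I = 2 * a - 1
    · right
      simp only [isV]
      omega
    by_cases d4 : I = 2 * a ∧ J = 2
    · right
      simp only [isV]
      omega
    exfalso
    apply hex
    obtain ⟨x, rfl⟩ : ∃ x, I = 2 * a + x := ⟨I - 2 * a, by ring⟩
    have g3 : 0 ≤ x := by omega
    have g4 : x ≤ 3 := by omega
    have g5 : 2 ≤ J := by omega
    have g6 : J ≤ 5 := by omega
    interval_cases dl
    · interval_cases x <;> interval_cases J <;>
        first
        | (exfalso; omega)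
        | simp [CNT_exA]
    · interval_cases x <;> interval_cases J <;>
        first
        | (exfalso; omega)
        | simp [CNT_exA]
  have hB : isB a dl (I - 2 * a + 1, J + a - 2) := by
    unfold isB
    rcases hUV with hV | hV
    · exact Or.inr (Or.inr (Or.inl hV))
    · exact Or.inr (Or.inr (Or.inr (Or.inr (Or.inl hV))))
  exact CNT_mkA ha h0 hd' _ (2, -1) hB (CNT_A21 ha hd' hUV)
    (hshift _ _ _ _ (by ring) (by ring))

theorem CNT_subB {a : ℤ} {dl : ℕ} {Q : Pt} (h : Q ∉ CNT_exB a dl) : Q ∉ CNT_exA a dl :=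
  fun h' => h (List.mem_append_left _ h')

theorem CNT_covB (a : ℤ) (dl : ℕ) (ha : 11 ≤ a) (hd : dl ≤ 1) (I J : ℤ) (hI : 1 ≤ I) (hJ : 1 ≤ J)
    (h2 : I + J ≤ 2 * a + 4 + dl) (hex' : ((I, J) : Pt) ∉ CNT_exB a dl) :
    ∃ u ∈ UB a dl, shift a u.1 u.2 = (I, J) := by
  have h0 : (0 : ℤ) ≤ (dl : ℤ) := by positivity
  have hd' : (dl : ℤ) ≤ 1 := by exact_mod_cast hd
  have hex := CNT_subB hex'
  have hshift : ∀ (x y i k : ℤ), x + i * a + k = I → y + i + k * a = J →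
      shift a (x, y) (i, k) = (I, J) := by
    intro x y i k h3 h4
    simp only [shift, h3, h4]
  have hS : ∀ x y : ℤ, 0 ≤ x → 0 ≤ y → 1 ≤ x + y → x + y ≤ 2 + dl → ¬(x = 1 ∧ y = 1) →
      isS dl (x, y) := by
    intro x y h3 h4 h5 h6 h7
    exact ⟨h5, h6, h3, h4, h7⟩
  -- the point (1, a)
  by_cases c0 : I = 1 ∧ J = a
  · exfalso
    obtain ⟨rfl, rfl⟩ := c0
    exact hex' (by simp [CNT_exB])
  -- the base
  by_cases c1 : I ≤ a - 2 ∧ J ≤ a - 1
  · have e1 : ¬(I = 1 ∧ J = 1) := by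
      rintro ⟨rfl, rfl⟩
      exact hex (by simp [CNT_exA])
    have e2 : ¬(I = 1 + 2 * (a + 1) / 3 ∧ J = 1 + 2 * (a + 1) / 3) := by
      rintro ⟨rfl, rfl⟩
      exact hex (by simp [CNT_exA])
    have e3 : ¬(J = a - 1 ∧ I ≤ 4 + dl) := by
      rintro ⟨rfl, h3⟩
      apply hex'
      interval_cases dl
      · have h4 : I ≤ 4 := by push_cast at h3; omega
        interval_cases I <;> simp [CNT_exB]
      · have h4 : I ≤ 5 := by push_cast at h3; omega
        interval_cases I <;> simp [CNT_exB]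
    have e4 : ¬(I + J ≤ 2 + dl) := by
      intro h3
      apply hex'
      interval_cases dl
      · exfalso
        push_cast at h3
        omega
      · have h4 : I ≤ 2 := by push_cast at h3; omega
        have h5 : J ≤ 2 := by push_cast at h3; omega
        push_cast at h3
        interval_cases I <;> interval_cases J
        · exact absurd ⟨rfl, rfl⟩ e1
        · simp [CNT_exB]
        · simp [CNT_exB]
        · omega
    have hT : isT a dl (I, J) ∨ isU a dl (I, J) ∨ isW a dl (I, J) ∨ isQ a dl (I, J) := by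
      simp only [isT, isU, isW, isQ]
      omega
    have hB : isB a dl (I, J) := by
      unfold isB
      rcases hT with h | h | h | h
      · exact Or.inr (Or.inl h)
      · exact Or.inr (Or.inr (Or.inl h))
      · exact Or.inr (Or.inr (Or.inr (Or.inl h)))
      · exact Or.inr (Or.inr (Or.inr (Or.inr (Or.inr h))))
    exact CNT_mkB ha h0 hd' (I, J) (0, 0) hB (CNT_B00 ha ⟨hI, hJ⟩ hT hd')
      (hshift _ _ _ _ (by ring) (by ring))
  -- minus beta
  by_cases c2 : 1 ≤ I ∧ I ≤ a - 1 ∧ a ≤ J ∧ (J ≤ 2 * a - 1 ∨ I = 1 ∨ (I = 2 ∧ J = 2 * a))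
  · have e1 : ¬(I = 2 ∧ J = a + 1) := by
      rintro ⟨rfl, rfl⟩
      exact hex (by simp [CNT_exA])
    have hG : CNT_G a dl (I - 1, J - a) :=
      CNT_G_of ha h0 hd' (by omega) (by omega) (by omega) (by omega) (by omega) (by omega)
        (by omega)
    exact CNT_mkB ha h0 hd' (I - 1, J - a) (0, 1) (CNT_GB hG) (CNT_B01 hG)
      (hshift _ _ _ _ (by ring) (by ring))
  -- minus alpha
  by_cases c3 : a ≤ I ∧ I ≤ 2 * a - 2 ∧ 1 ≤ J ∧ 2 ≤ I - a + J ∧
      (J ≤ a ∨ I = a ∨ (I = a + 1 ∧ J = a + 1))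
  · have e1 : ¬(I = a + 1 ∧ J = 2) := by
      rintro ⟨rfl, rfl⟩
      exact hex (by simp [CNT_exA])
    have hG : CNT_G a dl (I - a, J - 1) :=
      CNT_G_of ha h0 hd' (by omega) (by omega) (by omega) (by omega) (by omega) (by omega)
        (by omega)
    have hnS : ¬isS dl (I - a, J - 1) := by
      intro h3
      apply hex'
      obtain ⟨x, rfl⟩ : ∃ x, I = a + x := ⟨I - a, by ring⟩
      simp only [isS] at h3
      have g3 : 0 ≤ x := by omega
      have g4 : x ≤ 3 := by omega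
      have g6 : J ≤ 4 := by omega
      interval_cases dl
      · push_cast at h3
        interval_cases x <;> interval_cases J <;>
          first
          | (exfalso; omega)
          | simp [CNT_exB]
      · push_cast at h3
        interval_cases x <;> interval_cases J <;>
          first
          | (exfalso; omega)
          | simp [CNT_exB]
    exact CNT_mkB ha h0 hd' (I - a, J - 1) (1, 0) (CNT_GB hG) (CNT_B10 hnS hG)
      (hshift _ _ _ _ (by ring) (by ring))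
  -- plus (a-1, 1-a)
  by_cases c5 : (I = a - 1 ∧ J ≤ a - 1) ∨ (I = a ∧ J = 1)
  · have e1 : ¬(I = a ∧ J = 1) := by
      rintro ⟨rfl, rfl⟩
      exact hex' (by simp [CNT_exB])
    have e2 : ¬(I = a - 1 ∧ J ≤ 4 + dl) := by
      rintro ⟨rfl, h3⟩
      apply hex'
      interval_cases dl
      · have h4 : J ≤ 4 := by push_cast at h3; omega
        interval_cases J <;> simp [CNT_exB]
      · have h4 : J ≤ 5 := by push_cast at h3; omega
        interval_cases J <;> simp [CNT_exB]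
    have hQ : isQ a dl (I - a + 1, J + a - 1) := by
      simp only [isQ]
      omega
    have hB : isB a dl (I - a + 1, J + a - 1) := by
      unfold isB
      exact Or.inr (Or.inr (Or.inr (Or.inr (Or.inr hQ))))
    exact CNT_mkB ha h0 hd' _ (1, -1) hB (CNT_B1m1 ha hQ (by show a ≤ J + a - 1; omega))
      (hshift _ _ _ _ (by ring) (by ring))
  -- minus 2 beta
  by_cases c7 : I ≤ a - 1
  · have e1 : ¬(I = 3 ∧ J = 2 * a + 1) := by
      rintro ⟨rfl, rfl⟩
      exact hex (by simp [CNT_exA])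
    have hS' : isS dl (I - 2, J - 2 * a) :=
      hS _ _ (by omega) (by omega) (by omega) (by omega) (by omega)
    exact CNT_mkB ha h0 hd' _ (0, 2) (Or.inl hS') (CNT_B02 hS')
      (hshift _ _ _ _ (by ring) (by ring))
  -- minus alpha minus beta
  by_cases c8 : a + 1 ≤ J
  · have e1 : ¬(I = a + 2 ∧ J = a + 2) := by
      rintro ⟨rfl, rfl⟩
      exact hex (by simp [CNT_exA])
    have hS' : isS dl (I - a - 1, J - a - 1) :=
      hS _ _ (by omega) (by omega) (by omega) (by omega) (by omega)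
    exact CNT_mkB ha h0 hd' _ (1, 1) (Or.inl hS') (CNT_B11 hS')
      (hshift _ _ _ _ (by ring) (by ring))
  -- minus 2 alpha plus beta
  have g1 : 2 * a - 1 ≤ I := by omega
  have g2 : J ≤ a := by omega
  clear c1 c2 c3 c5 c7 c8
  have hUV : isV a dl (I - 2 * a + 1, J + a - 2) := by
    by_cases d2 : J = 1
    · simp only [isV]
      omega
    by_cases d3 : I = 2 * a - 1
    · simp only [isV]
      omega
    by_cases d4 : I = 2 * a ∧ J = 2
    · simp only [isV]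
      omega
    exfalso
    apply hex
    obtain ⟨x, rfl⟩ : ∃ x, I = 2 * a + x := ⟨I - 2 * a, by ring⟩
    have g3 : 0 ≤ x := by omega
    have g4 : x ≤ 3 := by omega
    have g5 : 2 ≤ J := by omega
    have g6 : J ≤ 5 := by omega
    interval_cases dl
    · interval_cases x <;> interval_cases J <;>
        first
        | (exfalso; omega)
        | simp [CNT_exA]
    · interval_cases x <;> interval_cases J <;>
        first
        | (exfalso; omega)
        | simp [CNT_exA]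
  have hB : isB a dl (I - 2 * a + 1, J + a - 2) := by
    unfold isB
    exact Or.inr (Or.inr (Or.inr (Or.inr (Or.inl hUV))))
  exact CNT_mkB ha h0 hd' _ (2, -1) hB (CNT_B21 ha hd' hUV)
    (hshift _ _ _ _ (by ring) (by ring))

/-- the triangle, `I + J = s + 1`, `s < D` -/
def CNT_T (D : ℕ) : Finset ((_ : ℕ) × ℕ) := (range D).sigma fun s => range (s + 2)

/-- the interior, `I + J = s + 2`, `s < D - 1` -/
def CNT_T0 (D : ℕ) : Finset ((_ : ℕ) × ℕ) := (range (D - 1)).sigma fun s => range (s + 1)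

theorem CNT_cardT (D : ℕ) (hD : 1 ≤ D) : (CNT_T D).card + (CNT_T0 D).card = D * (D + 1) := by
  rw [CNT_T, CNT_T0, card_sigma, card_sigma]
  simp only [card_range]
  obtain ⟨n, rfl⟩ : ∃ n, D = n + 1 := ⟨D - 1, by omega⟩
  rw [Nat.add_sub_cancel]
  clear hD
  induction n with
  | zero => simp
  | succ n ih =>
    rw [sum_range_succ, sum_range_succ (fun s => s + 1)]
    nlinarith [ih]

/-- from a covering to a lower bound -/
theorem CNT_bound (a : ℤ) (T : Finset ((_ : ℕ) × ℕ)) (g : ((_ : ℕ) × ℕ) → Pt)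
    (hg : Set.InjOn g T) (U : Finset (Pt × Pt)) (L : List Pt)
    (h : ∀ t ∈ T, g t ∉ L → ∃ u ∈ U, shift a u.1 u.2 = g t) : T.card ≤ U.card + L.length := by
  classical
  have h1 : T.image g ⊆ (U.image fun u => shift a u.1 u.2) ∪ L.toFinset := by
    intro Q hQ
    obtain ⟨t, ht, rfl⟩ := mem_image.1 hQ
    rw [mem_union]
    by_cases hL : g t ∈ L
    · exact Or.inr (List.mem_toFinset.2 hL)
    · obtain ⟨u, hu, hu'⟩ := h t ht hL
      exact Or.inl (mem_image.2 ⟨u, hu, hu'⟩)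
  have h2 := card_le_card h1
  rw [card_image_of_injOn hg] at h2
  have h3 := card_union_le (U.image fun u => shift a u.1 u.2) L.toFinset
  have h4 : (U.image fun u => shift a u.1 u.2).card ≤ U.card := card_image_le
  have h5 := L.toFinset_card_le
  omega

theorem CNT : CNT_stmt := by
  intro a dl ha hd
  have ha' : (11 : ℤ) ≤ (a : ℤ) := by exact_mod_cast ha
  have hA : (CNT_T (2 * a + 4 + dl)).card ≤ (UA (a : ℤ) dl).card + (CNT_exA a dl).length := by
    refine CNT_bound (a : ℤ) _ (fun t => ((t.2 : ℤ), (t.1 : ℤ) + 1 - t.2)) ?_ _ _ ?_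
    · rintro ⟨s, i⟩ _ ⟨s', i'⟩ _ h
      simp only [Prod.mk.injEq] at h
      obtain ⟨h1, h2⟩ := h
      have e1 : i = i' := by omega
      have e2 : s = s' := by omega
      subst e1 e2
      rfl
    · rintro ⟨s, i⟩ ht hL
      simp only [CNT_T, mem_sigma, mem_range] at ht
      exact CNT_covA a dl ha' hd (i : ℤ) ((s : ℤ) + 1 - i) (by positivity) (by omega) (by omega)
        (by omega) hL
  have hB : (CNT_T0 (2 * a + 4 + dl)).card ≤ (UB (a : ℤ) dl).card + (CNT_exB a dl).length := by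
    refine CNT_bound (a : ℤ) _ (fun t => ((t.2 : ℤ) + 1, (t.1 : ℤ) + 1 - t.2)) ?_ _ _ ?_
    · rintro ⟨s, i⟩ _ ⟨s', i'⟩ _ h
      simp only [Prod.mk.injEq] at h
      obtain ⟨h1, h2⟩ := h
      have e1 : i = i' := by omega
      have e2 : s = s' := by omega
      subst e1 e2
      rfl
    · rintro ⟨s, i⟩ ht hL
      simp only [CNT_T0, mem_sigma, mem_range] at ht
      exact CNT_covB a dl ha' hd ((i : ℤ) + 1) ((s : ℤ) + 1 - i) (by omega) (by omega) (by omega) hL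
  rw [CNT_lenA _ _ hd] at hA
  rw [CNT_lenB _ _ hd] at hB
  have hT := CNT_cardT (2 * a + 4 + dl) (by omega)
  have e : (2 * a + 4 + dl) * (2 * a + 5 + dl) = (2 * a + 4 + dl) * (2 * a + 4 + dl + 1) := by ring
  rw [e, ← hT]
  omega

end Pool.Agent.LK
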